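import Mathlib

set_option autoImplicit false

/-! # [RSD-B1] Rolle with exceptional points -/

namespace Pool.Agent.RSD

theorem b1_base (f f' : ℝ → ℝ) (a b : ℝ) (hf : ∀ x, x ∈ Set.Ioo a b → HasDerivAt f (f' x) x) (Z : Finset ℝ) :
    (∀ z ∈ Z, z ∈ Set.Ioo a b ∧ f z = 0) →
    ∃ Z' : Finset ℝ, (∀ z ∈ Z', z ∈ Set.Ioo a b ∧ f' z = 0) ∧ (∀ z ∈ Z', ∃ y ∈ Z, z < y) ∧
      Z.card ≤ Z'.card + 1 := by
  induction Z using Finset.induction_on_max with
  | empty =>
    intro _
    exact ⟨∅, by simp, by simp, by simp⟩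
  | insert m s hm ih =>
    intro hZ
    obtain ⟨Z0, h1, h2, h3⟩ := ih fun z hz => hZ z (Finset.mem_insert_of_mem hz)
    have hms : m ∉ s := fun h => lt_irrefl m (hm m h)
    by_cases hs : s.Nonempty
    · have hy := s.max'_mem hs
      have hyZ := hZ _ (Finset.mem_insert_of_mem hy)
      have hmZ := hZ m (Finset.mem_insert_self m s)
      have hlt := hm _ hy
      have hsub : ∀ x ∈ Set.Icc (s.max' hs) m, x ∈ Set.Ioo a b := fun x hx =>
        ⟨lt_of_lt_of_le hyZ.1.1 hx.1, lt_of_le_of_lt hx.2 hmZ.1.2⟩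
      obtain ⟨c, hc, hc0⟩ := exists_hasDerivAt_eq_zero (f := f) (f' := f') hlt
        (fun x hx => (hf x (hsub x hx)).continuousAt.continuousWithinAt)
        (hyZ.2.trans hmZ.2.symm) (fun x hx => hf x (hsub x (Set.Ioo_subset_Icc_self hx)))
      have hcZ : c ∉ Z0 := by
        intro h
        obtain ⟨y, hy1, hy2⟩ := h2 c h
        exact absurd hc.1 (not_lt.2 (hy2.le.trans (s.le_max' y hy1)))
      refine ⟨insert c Z0, ?_, ?_, ?_⟩
      · intro z hz
        rcases Finset.mem_insert.1 hz with rfl | hz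
        · exact ⟨hsub _ (Set.Ioo_subset_Icc_self hc), hc0⟩
        · exact h1 z hz
      · intro z hz
        rcases Finset.mem_insert.1 hz with rfl | hz
        · exact ⟨m, Finset.mem_insert_self m s, hc.2⟩
        · obtain ⟨y, hy1, hy2⟩ := h2 z hz
          exact ⟨y, Finset.mem_insert_of_mem hy1, hy2⟩
      · rw [Finset.card_insert_of_notMem hcZ, Finset.card_insert_of_notMem hms]
        omega
    · rw [Finset.not_nonempty_iff_eq_empty] at hs
      subst hs
      exact ⟨∅, by simp, by simp, by simp⟩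

theorem b1_main (f f' : ℝ → ℝ) (n : ℕ) : ∀ (a b : ℝ) (E Z : Finset ℝ), E.card = n →
    (∀ x, x ∈ Set.Ioo a b → x ∉ E → HasDerivAt f (f' x) x) →
    (∀ z ∈ Z, z ∈ Set.Ioo a b ∧ z ∉ E ∧ f z = 0) →
    ∃ Z' : Finset ℝ, (∀ z ∈ Z', z ∈ Set.Ioo a b ∧ z ∉ E ∧ f' z = 0) ∧
      Z.card ≤ Z'.card + 1 + E.card := by
  classical
  induction n using Nat.strong_induction_on with
  | _ n ih =>
  intro a b E Z hn hf hZ
  by_cases hE : ∃ e ∈ E, e ∈ Set.Ioo a b
  · obtain ⟨e, heE, hea, heb⟩ := hE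
    have hc1 : (E.filter (· < e)).card < n := by
      rw [← hn]
      exact Finset.card_lt_card (Finset.filter_ssubset.2 ⟨e, heE, lt_irrefl e⟩)
    have hc2 : (E.filter (e < ·)).card < n := by
      rw [← hn]
      exact Finset.card_lt_card (Finset.filter_ssubset.2 ⟨e, heE, lt_irrefl e⟩)
    obtain ⟨Z1, h1, h1c⟩ := ih _ hc1 a e (E.filter (· < e)) (Z.filter (· < e)) rfl
      (fun x hx hxE => hf x ⟨hx.1, hx.2.trans heb⟩ fun h => hxE (Finset.mem_filter.2 ⟨h, hx.2⟩))
      (fun z hz => by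
        obtain ⟨hz1, hz2⟩ := Finset.mem_filter.1 hz
        obtain ⟨h3, h4, h5⟩ := hZ z hz1
        exact ⟨⟨h3.1, hz2⟩, fun h => h4 (Finset.mem_filter.1 h).1, h5⟩)
    obtain ⟨Z2, h2, h2c⟩ := ih _ hc2 e b (E.filter (e < ·)) (Z.filter (e < ·)) rfl
      (fun x hx hxE => hf x ⟨hea.trans hx.1, hx.2⟩ fun h => hxE (Finset.mem_filter.2 ⟨h, hx.1⟩))
      (fun z hz => by
        obtain ⟨hz1, hz2⟩ := Finset.mem_filter.1 hz
        obtain ⟨h3, h4, h5⟩ := hZ z hz1
        exact ⟨⟨hz2, h3.2⟩, fun h => h4 (Finset.mem_filter.1 h).1, h5⟩)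
    refine ⟨Z1 ∪ Z2, ?_, ?_⟩
    · intro z hz
      rcases Finset.mem_union.1 hz with hz | hz
      · obtain ⟨h3, h4, h5⟩ := h1 z hz
        exact ⟨⟨h3.1, h3.2.trans heb⟩, fun h => h4 (Finset.mem_filter.2 ⟨h, h3.2⟩), h5⟩
      · obtain ⟨h3, h4, h5⟩ := h2 z hz
        exact ⟨⟨hea.trans h3.1, h3.2⟩, fun h => h4 (Finset.mem_filter.2 ⟨h, h3.1⟩), h5⟩
    · have hd : Disjoint Z1 Z2 := by
        rw [Finset.disjoint_left]
        intro z hz1 hz2
        exact lt_asymm (h1 z hz1).1.2 (h2 z hz2).1.1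
      rw [Finset.card_union_of_disjoint hd]
      have e1 : Z.card ≤ (Z.filter (· < e)).card + (Z.filter (e < ·)).card := by
        refine (Finset.card_le_card ?_).trans (Finset.card_union_le _ _)
        intro z hz
        rw [Finset.mem_union, Finset.mem_filter, Finset.mem_filter]
        rcases lt_trichotomy z e with h | h | h
        · exact Or.inl ⟨hz, h⟩
        · exact absurd heE (h ▸ (hZ z hz).2.1)
        · exact Or.inr ⟨hz, h⟩
      have e2 : (E.filter (· < e)).card + (E.filter (e < ·)).card + 1 ≤ E.card := by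
        have hd1 : Disjoint (E.filter (· < e)) (E.filter (e < ·)) := by
          rw [Finset.disjoint_left]
          intro z hz1 hz2
          exact lt_asymm (Finset.mem_filter.1 hz1).2 (Finset.mem_filter.1 hz2).2
        have hne : e ∉ E.filter (· < e) ∪ E.filter (e < ·) := by
          rw [Finset.mem_union, Finset.mem_filter, Finset.mem_filter]
          rintro (h | h)
          · exact lt_irrefl e h.2
          · exact lt_irrefl e h.2
        rw [← Finset.card_union_of_disjoint hd1, ← Finset.card_insert_of_notMem hne]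
        refine Finset.card_le_card ?_
        intro z hz
        rw [Finset.mem_insert, Finset.mem_union, Finset.mem_filter, Finset.mem_filter] at hz
        rcases hz with h | h | h
        · exact h ▸ heE
        · exact h.1
        · exact h.1
      omega
  · obtain ⟨Z', h1, -, h3⟩ := b1_base f f' a b
      (fun x hx => hf x hx fun h => hE ⟨x, h, hx⟩) Z (fun z hz => ⟨(hZ z hz).1, (hZ z hz).2.2⟩)
    refine ⟨Z', fun z hz => ⟨(h1 z hz).1, fun h => hE ⟨z, h, (h1 z hz).1⟩, (h1 z hz).2⟩, ?_⟩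
    omega

/-- **[RSD-B1]** Rolle's theorem with a finite exceptional set `E`: if `f` is differentiable on
`(a, b) ∖ E` and vanishes on the finite set `Z ⊆ (a, b) ∖ E`, there is a finite set
`Z' ⊆ (a, b) ∖ E` of zeros of `f'` with `|Z| ≤ |Z'| + 1 + |E|`.

Proof. Strong induction on `E.card` (with `a, b, Z` arbitrary; if `b ≤ a` then `Z = ∅`).
If `E ∩ (a, b) = ∅`: order `Z` increasingly (`Finset.orderEmbOfFin`); between consecutive zeros
there is a zero of `f'` (`exists_hasDerivAt_eq_zero`, `f` is continuous on the closed interval as it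
is differentiable there); these are distinct.  (Or induct on `Z.card` removing the largest
element.)  If `e ∈ E ∩ (a, b)`: apply the induction hypothesis on `(a, e)` with
`E₁ = E.filter (· < e)`, `Z₁ = Z.filter (· < e)` and on `(e, b)` with `E₂ = E.filter (e < ·)`,
`Z₂ = Z.filter (e < ·)`; `|E₁| + |E₂| + 1 ≤ |E|`, `Z = Z₁ ∪ Z₂`, and `Z' = Z₁' ∪ Z₂'` is a disjoint
union (a point of `Z₁'` is `< e`, so it is not in `E` since it is not in `E₁`). -/
theorem rolle_except (f f' : ℝ → ℝ) (a b : ℝ) (E Z : Finset ℝ)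
    (hf : ∀ x, x ∈ Set.Ioo a b → x ∉ E → HasDerivAt f (f' x) x)
    (hZ : ∀ z ∈ Z, z ∈ Set.Ioo a b ∧ z ∉ E ∧ f z = 0) :
    ∃ Z' : Finset ℝ, (∀ z ∈ Z', z ∈ Set.Ioo a b ∧ z ∉ E ∧ f' z = 0) ∧
      Z.card ≤ Z'.card + 1 + E.card := by
  exact b1_main f f' E.card a b E Z rfl hf hZ

end Pool.Agent.RSD
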