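import Mathlib
import Pool.Agent.RSD.B.B1

set_option autoImplicit false

/-! # [RSD-B2] the operator `D² + k²` on a short interval -/

namespace Pool.Agent.RSD

/-- the comparison function is positive -/
theorem b2_pos {a b k x : ℝ} (hk : 0 ≤ k) (hkab : k * (b - a) < Real.pi) (hx : x ∈ Set.Ioo a b) :
    0 < Real.cos (k * (x - (a + b) / 2)) := by
  apply Real.cos_pos_of_mem_Ioo
  obtain ⟨h1, h2⟩ := hx
  rcases hk.eq_or_lt with h0 | h0
  · rw [← h0, zero_mul]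
    constructor <;> have := Real.pi_pos <;> linarith
  · have h3 : k * (x - (a + b) / 2) < k * ((b - a) / 2) := mul_lt_mul_of_pos_left (by linarith) h0
    have h4 : k * (-((b - a) / 2)) < k * (x - (a + b) / 2) := mul_lt_mul_of_pos_left (by linarith) h0
    constructor
    · linarith
    · linarith

theorem b2_s (k m x : ℝ) : HasDerivAt (fun x => Real.cos (k * (x - m))) (-(k * Real.sin (k * (x - m)))) x := by
  have h1 : HasDerivAt (fun x : ℝ => k * (x - m)) (k * 1) x := ((hasDerivAt_id x).sub_const m).const_mul k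
  exact h1.cos.congr_deriv (by ring)

theorem b2_s2 (k m x : ℝ) : HasDerivAt (fun x => -(k * Real.sin (k * (x - m)))) (-(k ^ 2 * Real.cos (k * (x - m)))) x := by
  have h1 : HasDerivAt (fun x : ℝ => k * (x - m)) (k * 1) x := ((hasDerivAt_id x).sub_const m).const_mul k
  exact (h1.sin.const_mul k).neg.congr_deriv (by ring)

/-- derivative of `f / s` -/
theorem b2_quot {f f1 : ℝ → ℝ} {a b k x : ℝ} (hk : 0 ≤ k) (hkab : k * (b - a) < Real.pi)
    (h1 : ∀ x ∈ Set.Ioo a b, HasDerivAt f (f1 x) x) (hx : x ∈ Set.Ioo a b) :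
    HasDerivAt (fun x => f x / Real.cos (k * (x - (a + b) / 2)))
      ((f1 x * Real.cos (k * (x - (a + b) / 2)) - f x * (-(k * Real.sin (k * (x - (a + b) / 2))))) /
        Real.cos (k * (x - (a + b) / 2)) ^ 2) x :=
  (h1 x hx).div (b2_s k _ x) (b2_pos hk hkab hx).ne'

/-- derivative of the Wronskian -/
theorem b2_wr {f f1 f2 : ℝ → ℝ} {a b k x : ℝ}
    (h1 : ∀ x ∈ Set.Ioo a b, HasDerivAt f (f1 x) x)
    (h2 : ∀ x ∈ Set.Ioo a b, HasDerivAt f1 (f2 x) x) (hx : x ∈ Set.Ioo a b) :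
    HasDerivAt (fun x => f1 x * Real.cos (k * (x - (a + b) / 2)) - f x * (-(k * Real.sin (k * (x - (a + b) / 2)))))
      (Real.cos (k * (x - (a + b) / 2)) * (f2 x + k ^ 2 * f x)) x := by
  exact (((h2 x hx).mul (b2_s k ((a + b) / 2) x)).sub ((h1 x hx).mul (b2_s2 k ((a + b) / 2) x))).congr_deriv (by ring)

theorem b2_const {g : ℝ → ℝ} {g' : ℝ → ℝ} {a b : ℝ} (hg : ∀ x ∈ Set.Ioo a b, HasDerivAt g (g' x) x)
    (h0 : ∀ x ∈ Set.Ioo a b, g' x = 0) {u v : ℝ} (hu : u ∈ Set.Ioo a b) (hv : v ∈ Set.Ioo a b) : g u = g v := by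
  have h := Convex.norm_image_sub_le_of_norm_hasDerivWithin_le (f := g) (f' := g') (C := 0)
    (fun x hx => (hg x hx).hasDerivWithinAt) (fun x hx => by rw [h0 x hx, norm_zero]) (convex_Ioo a b) hv hu
  rw [zero_mul] at h
  have h1 := norm_le_zero_iff.1 h
  linarith

/-- **[RSD-B2a]** If `f'' + k² f` has the finite set `Z'`... precisely: every finite set `Z` of
zeros of `f` on `(a, b)`, `k (b - a) < π`, gives a finite set `Z'` of zeros of `f'' + k² f` with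
`|Z| ≤ |Z'| + 2`.

Proof. `s x = cos (k (x - (a+b)/2)) > 0` on `(a, b)` because `|k (x - (a+b)/2)| < π/2`.
`rolle_except` (with `E = ∅`) for `f / s`, whose derivative is `(f' s - f s') / s²`; its zeros are
the zeros of `w = f' s - f s'`; `rolle_except` for `w`, with
`w' = f'' s - f s'' = s (f'' + k² f)` (`s'' = - k² s`). -/
theorem osc_step (f f1 f2 : ℝ → ℝ) (a b k : ℝ) (hk : 0 ≤ k) (hkab : k * (b - a) < Real.pi)
    (h1 : ∀ x ∈ Set.Ioo a b, HasDerivAt f (f1 x) x)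
    (h2 : ∀ x ∈ Set.Ioo a b, HasDerivAt f1 (f2 x) x)
    (Z : Finset ℝ) (hZ : ∀ z ∈ Z, z ∈ Set.Ioo a b ∧ f z = 0) :
    ∃ Z' : Finset ℝ, (∀ z ∈ Z', z ∈ Set.Ioo a b ∧ f2 z + k ^ 2 * f z = 0) ∧
      Z.card ≤ Z'.card + 2 := by
  obtain ⟨Z1, hZ1, hc1⟩ := rolle_except (fun x => f x / Real.cos (k * (x - (a + b) / 2))) _ a b ∅ Z
    (fun x hx _ => b2_quot hk hkab h1 hx) (fun z hz => ⟨(hZ z hz).1, Finset.notMem_empty z, by
      simp only [(hZ z hz).2, zero_div]⟩)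
  obtain ⟨Z2, hZ2, hc2⟩ := rolle_except
    (fun x => f1 x * Real.cos (k * (x - (a + b) / 2)) - f x * (-(k * Real.sin (k * (x - (a + b) / 2))))) _ a b ∅ Z1
    (fun x hx _ => b2_wr h1 h2 hx) (fun z hz => ⟨(hZ1 z hz).1, Finset.notMem_empty z, by
      have h3 := (hZ1 z hz).2.2
      have h4 := (b2_pos hk hkab (hZ1 z hz).1).ne'
      rcases div_eq_zero_iff.1 h3 with h5 | h5
      · exact h5
      · exact absurd h5 (pow_ne_zero 2 h4)⟩)
  refine ⟨Z2, fun z hz => ⟨(hZ2 z hz).1, ?_⟩, ?_⟩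
  · have h3 := (hZ2 z hz).2.2
    have h4 := (b2_pos hk hkab (hZ2 z hz).1).ne'
    rcases mul_eq_zero.1 h3 with h5 | h5
    · exact absurd h5 h4
    · exact h5
  · rw [Finset.card_empty] at hc1 hc2
    omega

/-- **[RSD-B2b]** If `f'' + k² f = 0` on `(a, b)`, `k (b - a) < π`, and `f` has two different zeros
in `(a, b)` then `f = 0` on `(a, b)`.

Proof. With `s` as in `osc_step`, `w = f' s - f s'` has derivative `0`, so `w = c` is constant on
`(a, b)` and `(f / s)' = c / s²`.  By Rolle (two zeros of `f / s`) `c / s² = 0` somewhere, so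
`c = 0`, `f / s` is constant and has a zero, so it is `0`. -/
theorem osc_kernel (f f1 f2 : ℝ → ℝ) (a b k : ℝ) (hk : 0 ≤ k) (hkab : k * (b - a) < Real.pi)
    (h1 : ∀ x ∈ Set.Ioo a b, HasDerivAt f (f1 x) x)
    (h2 : ∀ x ∈ Set.Ioo a b, HasDerivAt f1 (f2 x) x)
    (h0 : ∀ x ∈ Set.Ioo a b, f2 x + k ^ 2 * f x = 0)
    (x y : ℝ) (hx : x ∈ Set.Ioo a b) (hy : y ∈ Set.Ioo a b) (hxy : x ≠ y)
    (fx : f x = 0) (fy : f y = 0) : ∀ z ∈ Set.Ioo a b, f z = 0 := by
  have hw : ∀ x ∈ Set.Ioo a b, Real.cos (k * (x - (a + b) / 2)) * (f2 x + k ^ 2 * f x) = 0 := fun x hx => by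
    rw [h0 x hx, mul_zero]
  obtain ⟨ξ, hξ, hξ0⟩ : ∃ ξ ∈ Set.Ioo a b,
      f1 ξ * Real.cos (k * (ξ - (a + b) / 2)) - f ξ * (-(k * Real.sin (k * (ξ - (a + b) / 2)))) = 0 := by
    obtain ⟨Z1, hZ1, hc1⟩ := rolle_except (fun x => f x / Real.cos (k * (x - (a + b) / 2))) _ a b ∅ {x, y}
      (fun x hx _ => b2_quot hk hkab h1 hx) (fun z hz => by
        rw [Finset.mem_insert, Finset.mem_singleton] at hz
        rcases hz with rfl | rfl
        · exact ⟨hx, Finset.notMem_empty _, by simp only [fx, zero_div]⟩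
        · exact ⟨hy, Finset.notMem_empty _, by simp only [fy, zero_div]⟩)
    rw [Finset.card_pair hxy, Finset.card_empty] at hc1
    obtain ⟨ξ, hξ⟩ : Z1.Nonempty := Finset.card_pos.1 (by omega)
    have h3 := (hZ1 ξ hξ).2.2
    have h4 := (b2_pos hk hkab (hZ1 ξ hξ).1).ne'
    refine ⟨ξ, (hZ1 ξ hξ).1, ?_⟩
    rcases div_eq_zero_iff.1 h3 with h5 | h5
    · exact h5
    · exact absurd h5 (pow_ne_zero 2 h4)
  have hw0 : ∀ z ∈ Set.Ioo a b,
      f1 z * Real.cos (k * (z - (a + b) / 2)) - f z * (-(k * Real.sin (k * (z - (a + b) / 2)))) = 0 := by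
    intro z hz
    have h3 := b2_const (fun x hx => b2_wr (k := k) h1 h2 hx) hw hz hξ
    rw [h3, hξ0]
  intro z hz
  have h3 := b2_const (fun x hx => b2_quot hk hkab h1 hx) (fun x hx => by rw [hw0 x hx, zero_div]) hz hx
  rw [fx, zero_div] at h3
  rcases div_eq_zero_iff.1 h3 with h5 | h5
  · exact h5
  · exact absurd h5 (b2_pos hk hkab hz).ne'

end Pool.Agent.RSD
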