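import Mathlib

set_option autoImplicit false

/-! # [RSD-B3] trigonometric polynomials with polynomial coefficients -/

open Polynomial

namespace Pool.Agent.RSD

/-- `θ ↦ ∑_{k ≤ n} (P_k(θ) cos kθ + Q_k(θ) sin kθ)` -/
noncomputable def tev (n : ℕ) (P Q : ℕ → ℝ[X]) (θ : ℝ) : ℝ :=
  ∑ k ∈ Finset.range (n + 1), ((P k).eval θ * Real.cos (k * θ) + (Q k).eval θ * Real.sin (k * θ))

/-- **[RSD-B3a]** derivative of `tev` (product rule termwise, `HasDerivAt.sum`,
`Polynomial.hasDerivAt`). -/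
theorem tev_hasDerivAt (n : ℕ) (P Q : ℕ → ℝ[X]) (θ : ℝ) :
    HasDerivAt (tev n P Q)
      (tev n (fun k => derivative (P k) + C (k : ℝ) * Q k)
        (fun k => derivative (Q k) - C (k : ℝ) * P k) θ) θ := by
  have h1 : ∀ k ∈ Finset.range (n + 1), HasDerivAt
      (fun θ : ℝ => (P k).eval θ * Real.cos (k * θ) + (Q k).eval θ * Real.sin (k * θ))
      ((derivative (P k) + C (k : ℝ) * Q k).eval θ * Real.cos (k * θ) +
        (derivative (Q k) - C (k : ℝ) * P k).eval θ * Real.sin (k * θ)) θ := by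
    intro k _
    have h2 : HasDerivAt (fun θ : ℝ => (k : ℝ) * θ) ((k : ℝ) * 1) θ := (hasDerivAt_id θ).const_mul (k : ℝ)
    have h3 := ((P k).hasDerivAt θ).mul h2.cos
    have h4 := ((Q k).hasDerivAt θ).mul h2.sin
    refine (h3.add h4).congr_deriv ?_
    rw [eval_add, eval_sub, eval_mul, eval_mul, eval_C]
    ring
  exact HasDerivAt.fun_sum h1

/-- the coefficients of `(D² + j²) tev` -/
noncomputable def opP (j : ℕ) (P Q : ℕ → ℝ[X]) (k : ℕ) : ℝ[X] :=
  derivative (derivative (P k)) + C (2 * (k : ℝ)) * derivative (Q k)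
    + C ((j : ℝ) ^ 2 - (k : ℝ) ^ 2) * P k
/-- the coefficients of `(D² + j²) tev` -/
noncomputable def opQ (j : ℕ) (P Q : ℕ → ℝ[X]) (k : ℕ) : ℝ[X] :=
  derivative (derivative (Q k)) - C (2 * (k : ℝ)) * derivative (P k)
    + C ((j : ℝ) ^ 2 - (k : ℝ) ^ 2) * Q k

/-- **[RSD-B3b]** second derivative plus `j²` times the function (apply the coefficient formula of
`tev_hasDerivAt` twice and expand; `ring` termwise). -/
theorem tev_op (n j : ℕ) (P Q : ℕ → ℝ[X]) (θ : ℝ) :
    tev n (fun k => derivative (derivative (P k) + C (k : ℝ) * Q k)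
          + C (k : ℝ) * (derivative (Q k) - C (k : ℝ) * P k))
        (fun k => derivative (derivative (Q k) - C (k : ℝ) * P k)
          - C (k : ℝ) * (derivative (P k) + C (k : ℝ) * Q k)) θ
      + (j : ℝ) ^ 2 * tev n P Q θ = tev n (opP j P Q) (opQ j P Q) θ := by
  unfold tev
  rw [Finset.mul_sum, ← Finset.sum_add_distrib]
  refine Finset.sum_congr rfl fun k _ => ?_
  simp only [opP, opQ, derivative_add, derivative_sub, derivative_C_mul, eval_add, eval_sub, eval_mul, eval_C]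
  ring

/-- **[RSD-B3c]** degrees do not increase (`degree_derivative_le`-type lemmas). -/
theorem op_degree (j k d : ℕ) (P Q : ℕ → ℝ[X]) (hP : (P k).degree < d) (hQ : (Q k).degree < d) :
    (opP j P Q k).degree < d ∧ (opQ j P Q k).degree < d := by
  rw [← mem_degreeLT] at hP hQ ⊢
  rw [← mem_degreeLT]
  have hd : ∀ p : ℝ[X], p ∈ degreeLT ℝ d → derivative p ∈ degreeLT ℝ d := by
    intro p hp
    rw [mem_degreeLT] at hp ⊢
    exact lt_of_le_of_lt degree_derivative_le hp
  have hc : ∀ (a : ℝ) (p : ℝ[X]), p ∈ degreeLT ℝ d → C a * p ∈ degreeLT ℝ d := by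
    intro a p hp
    rw [← smul_eq_C_mul]
    exact Submodule.smul_mem _ a hp
  exact ⟨add_mem (add_mem (hd _ (hd _ hP)) (hc _ _ (hd _ hQ))) (hc _ _ hP),
    add_mem (sub_mem (hd _ (hd _ hQ)) (hc _ _ (hd _ hP))) (hc _ _ hQ)⟩

/-- **[RSD-B3d]** for `k = j` the degree bound drops by one
(`degree_derivative_lt`: for `d = e + 1`, `degree P < e + 1` implies `degree P' < e`; e.g. through
`Polynomial.mem_degreeLT` / `natDegree_derivative_lt`, coefficients of index `≥ e` vanish). -/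
theorem op_degree_drop (j e : ℕ) (P Q : ℕ → ℝ[X]) (hP : (P j).degree < (e + 1 : ℕ))
    (hQ : (Q j).degree < (e + 1 : ℕ)) :
    (opP j P Q j).degree < e ∧ (opQ j P Q j).degree < e := by
  rw [← mem_degreeLT, ← mem_degreeLT]
  have hd : ∀ p : ℝ[X], p.degree < (e + 1 : ℕ) → derivative p ∈ degreeLT ℝ e := by
    intro p hp
    rw [mem_degreeLT, degree_lt_iff_coeff_zero]
    rw [degree_lt_iff_coeff_zero] at hp
    intro m hm
    rw [coeff_derivative, hp (m + 1) (by omega), zero_mul]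
  have hd2 : ∀ p : ℝ[X], p ∈ degreeLT ℝ e → derivative p ∈ degreeLT ℝ e := by
    intro p hp
    rw [mem_degreeLT] at hp ⊢
    exact lt_of_le_of_lt degree_derivative_le hp
  have hc : ∀ (a : ℝ) (p : ℝ[X]), p ∈ degreeLT ℝ e → C a * p ∈ degreeLT ℝ e := by
    intro a p hp
    rw [← smul_eq_C_mul]
    exact Submodule.smul_mem _ a hp
  unfold opP opQ
  rw [sub_self, C_0, zero_mul, zero_mul, add_zero, add_zero]
  exact ⟨add_mem (hd2 _ (hd _ hP)) (hc _ _ (hd _ hQ)), sub_mem (hd2 _ (hd _ hQ)) (hc _ _ (hd _ hP))⟩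

end Pool.Agent.RSD
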