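import Mathlib
import Pool.Agent.RSD.B.B2
import Pool.Agent.RSD.B.B3

set_option autoImplicit false

/-! # [RSD-B4] zero bound for `tev` -/

open Polynomial

namespace Pool.Agent.RSD

theorem b4_aux (n : ℕ) (a b : ℝ) (hab : (n : ℝ) * (b - a) < Real.pi) (s : ℕ) :
    ∀ (d : ℕ → ℕ) (P Q : ℕ → ℝ[X]), ∑ k ∈ Finset.range (n + 1), d k = s →
    (∀ k ≤ n, (P k).degree < d k ∧ (Q k).degree < d k) →
    (∃ x ∈ Set.Ioo a b, tev n P Q x ≠ 0) →
    ∀ Z : Finset ℝ, (∀ z ∈ Z, z ∈ Set.Ioo a b ∧ tev n P Q z = 0) → Z.card + 1 ≤ 2 * s := by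
  induction s with
  | zero =>
    intro d P Q hs hd hne Z hZ
    exfalso
    obtain ⟨x, hx, hx0⟩ := hne
    apply hx0
    unfold tev
    refine Finset.sum_eq_zero fun k hk => ?_
    have h1 : d k = 0 := Finset.sum_eq_zero_iff.1 hs k hk
    have h2 := hd k (by have := Finset.mem_range.1 hk; omega)
    rw [h1] at h2
    have h3 : ∀ p : ℝ[X], p.degree < ((0 : ℕ) : WithBot ℕ) → p = 0 := by
      intro p hp
      rw [degree_lt_iff_coeff_zero] at hp
      ext m
      rw [hp m (Nat.zero_le m), coeff_zero]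
    rw [h3 _ h2.1, h3 _ h2.2, eval_zero, zero_mul, zero_mul, add_zero]
  | succ s ih =>
    intro d P Q hs hd hne Z hZ
    obtain ⟨j, hj, hdj⟩ : ∃ j ∈ Finset.range (n + 1), d j ≠ 0 := by
      apply Finset.exists_ne_zero_of_sum_ne_zero
      rw [hs]
      omega
    obtain ⟨e, he⟩ := Nat.exists_eq_succ_of_ne_zero hdj
    have hjn : j ≤ n := by
      have := Finset.mem_range.1 hj
      omega
    have hsum : ∑ k ∈ Finset.range (n + 1), Function.update d j e k = s := by
      rw [← Finset.add_sum_erase _ _ hj] at hs ⊢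
      rw [Function.update_self]
      have h1 : ∑ x ∈ (Finset.range (n + 1)).erase j, Function.update d j e x =
          ∑ x ∈ (Finset.range (n + 1)).erase j, d x := by
        refine Finset.sum_congr rfl fun x hx => ?_
        rw [Function.update_of_ne (Finset.ne_of_mem_erase hx)]
      rw [h1]
      omega
    have hd' : ∀ k ≤ n, (opP j P Q k).degree < Function.update d j e k ∧
        (opQ j P Q k).degree < Function.update d j e k := by
      intro k hk
      by_cases hkj : k = j
      · subst hkj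
        rw [Function.update_self]
        have h1 := hd k hk
        rw [he] at h1
        exact op_degree_drop k e P Q h1.1 h1.2
      · rw [Function.update_of_ne hkj]
        exact op_degree j k (d k) P Q (hd k hk).1 (hd k hk).2
    obtain ⟨x0, hx0, hx0'⟩ := hne
    have hlt : a < b := hx0.1.trans hx0.2
    have hjab : (j : ℝ) * (b - a) < Real.pi := by
      refine lt_of_le_of_lt (mul_le_mul_of_nonneg_right ?_ (sub_pos.2 hlt).le) hab
      exact_mod_cast hjn
    have hf1 := fun θ => tev_hasDerivAt n P Q θ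
    have hf2 := fun θ => tev_hasDerivAt n (fun k => derivative (P k) + C (k : ℝ) * Q k)
      (fun k => derivative (Q k) - C (k : ℝ) * P k) θ
    have hop := fun θ => tev_op n j P Q θ
    by_cases hg : ∃ x ∈ Set.Ioo a b, tev n (opP j P Q) (opQ j P Q) x ≠ 0
    · obtain ⟨Z', hZ', hc⟩ := osc_step _ _ _ a b j (Nat.cast_nonneg j) hjab
        (fun x _ => hf1 x) (fun x _ => hf2 x) Z hZ
      have h1 := ih _ _ _ hsum hd' hg Z' (fun z hz => ⟨(hZ' z hz).1, by
        rw [← hop z]
        exact (hZ' z hz).2⟩)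
      omega
    · have hZ1 : Z.card ≤ 1 := by
        by_contra hc
        rw [not_le, Finset.one_lt_card] at hc
        obtain ⟨x, hx, y, hy, hxy⟩ := hc
        apply hx0'
        exact osc_kernel _ _ _ a b j (Nat.cast_nonneg j) hjab
          (fun x _ => hf1 x) (fun x _ => hf2 x) (fun x hx => by
            by_contra hne
            exact hg ⟨x, hx, by
              rw [← hop x]
              exact hne⟩) x y (hZ x hx).1 (hZ y hy).1 hxy (hZ x hx).2 (hZ y hy).2 x0 hx0
      omega

/-- **[RSD-B4]** Let `deg P_k, deg Q_k < d_k` (`k ≤ n`), `n (b - a) < π`, and let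
`f = tev n P Q` be not identically zero on `(a, b)`.  Then `f` has at most `2 ∑_{k ≤ n} d_k - 1`
zeros in `(a, b)`.

Proof. Induction on `s = ∑_{k ≤ n} d_k` (for all `d, P, Q`).  If `s = 0` all `P_k, Q_k` are `0` and
`f = 0`, contradiction.  Otherwise some `j ≤ n` has `d_j = e + 1`; put `d' = d` with `d'_j = e`.
By `op_degree`, `op_degree_drop`, `g := tev n (opP j P Q) (opQ j P Q)` has budget `s - 1`, and
`g = f'' + j² f` (`tev_hasDerivAt` twice, `tev_op`), `j (b - a) ≤ n (b - a) < π`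
(if `b ≤ a` there is nothing to do).  If `g` is not identically zero on `(a, b)`, `osc_step`
gives `|Z| ≤ |Z'| + 2 ≤ 2 (s - 1) - 1 + 2`, written additively `|Z| + 1 ≤ 2 s`
(state the induction as `Z.card + 1 ≤ 2 * s`).  If `g = 0` on `(a, b)`: by `osc_kernel` `f` has at
most one zero (else `f = 0`), so `|Z| + 1 ≤ 2 ≤ 2 s`. -/
theorem tev_zeros (n : ℕ) (d : ℕ → ℕ) (P Q : ℕ → ℝ[X]) (a b : ℝ)
    (hd : ∀ k ≤ n, (P k).degree < d k ∧ (Q k).degree < d k)
    (hab : (n : ℝ) * (b - a) < Real.pi)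
    (hne : ∃ x ∈ Set.Ioo a b, tev n P Q x ≠ 0)
    (Z : Finset ℝ) (hZ : ∀ z ∈ Z, z ∈ Set.Ioo a b ∧ tev n P Q z = 0) :
    Z.card + 1 ≤ 2 * ∑ k ∈ Finset.range (n + 1), d k := by
  exact b4_aux n a b hab _ d P Q rfl hd hne Z hZ

end Pool.Agent.RSD
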