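import Mathlib
import Pool.Agent.RSD.B.B3

set_option autoImplicit false

/-! # [RSD-B5] polynomials in `cos θ` -/

open Polynomial

namespace Pool.Agent.RSD

/-- combinations of `cos kθ`, `k ≤ n` -/
def b5_TC (n : ℕ) (f : ℝ → ℝ) : Prop :=
  ∃ t : ℕ → ℝ, ∀ θ : ℝ, f θ = ∑ k ∈ Finset.range (n + 1), t k * Real.cos (k * θ)

theorem b5_add {n : ℕ} {f g : ℝ → ℝ} (hf : b5_TC n f) (hg : b5_TC n g) :
    b5_TC n (fun θ => f θ + g θ) := by
  obtain ⟨t, ht⟩ := hf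
  obtain ⟨u, hu⟩ := hg
  refine ⟨fun k => t k + u k, fun θ => ?_⟩
  show f θ + g θ = _
  rw [ht θ, hu θ, ← Finset.sum_add_distrib]
  exact Finset.sum_congr rfl fun k _ => by ring

theorem b5_smul {n : ℕ} {f : ℝ → ℝ} (c : ℝ) (hf : b5_TC n f) : b5_TC n (fun θ => c * f θ) := by
  obtain ⟨t, ht⟩ := hf
  refine ⟨fun k => c * t k, fun θ => ?_⟩
  show c * f θ = _
  rw [ht θ, Finset.mul_sum]
  exact Finset.sum_congr rfl fun k _ => by ring

theorem b5_zero (n : ℕ) : b5_TC n (fun _ => 0) := ⟨fun _ => 0, fun θ => by simp⟩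

theorem b5_sum {n : ℕ} {ι : Type} (s : Finset ι) (f : ι → ℝ → ℝ) (h : ∀ i ∈ s, b5_TC n (f i)) :
    b5_TC n (fun θ => ∑ i ∈ s, f i θ) := by
  classical
  induction s using Finset.induction_on with
  | empty => simpa using b5_zero n
  | insert a s ha ih =>
    have h1 := b5_add (h a (Finset.mem_insert_self a s))
      (ih fun i hi => h i (Finset.mem_insert_of_mem hi))
    obtain ⟨t, ht⟩ := h1
    refine ⟨t, fun θ => ?_⟩
    rw [← ht θ]
    exact Finset.sum_insert ha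

theorem b5_cos {n k : ℕ} (hk : k ≤ n) : b5_TC n (fun θ => Real.cos (k * θ)) := by
  refine ⟨fun j => if j = k then 1 else 0, fun θ => ?_⟩
  simp only [ite_mul, one_mul, zero_mul]
  rw [Finset.sum_ite_eq' (Finset.range (n + 1)) k (fun j : ℕ => Real.cos (j * θ)),
    if_pos (Finset.mem_range.2 (by omega))]

theorem b5_mul_cos {n k : ℕ} (hk : k ≤ n) :
    b5_TC (n + 1) (fun θ => Real.cos θ * Real.cos (k * θ)) := by
  rcases k with _ | k
  · have h1 := b5_cos (n := n + 1) (k := 1) (by omega)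
    obtain ⟨t, ht⟩ := h1
    refine ⟨t, fun θ => ?_⟩
    rw [← ht θ]
    simp
  · have h1 := b5_cos (n := n + 1) (k := k + 2) (by omega)
    have h2 := b5_cos (n := n + 1) (k := k) (by omega)
    obtain ⟨t, ht⟩ := b5_smul (1 / 2) (b5_add h1 h2)
    refine ⟨t, fun θ => ?_⟩
    rw [← ht θ]
    have e1 : ((k + 2 : ℕ) : ℝ) * θ = ((k + 1 : ℕ) : ℝ) * θ + θ := by push_cast; ring
    have e2 : ((k : ℕ) : ℝ) * θ = ((k + 1 : ℕ) : ℝ) * θ - θ := by push_cast; ring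
    show Real.cos θ * Real.cos (((k + 1 : ℕ) : ℝ) * θ) =
      1 / 2 * (Real.cos (((k + 2 : ℕ) : ℝ) * θ) + Real.cos ((k : ℝ) * θ))
    rw [e1, e2, Real.cos_add, Real.cos_sub]
    ring

theorem b5_pow (i : ℕ) : b5_TC i (fun θ => (-Real.cos θ) ^ i) := by
  induction i with
  | zero =>
    refine ⟨fun _ => 1, fun θ => ?_⟩
    simp
  | succ i ih =>
    obtain ⟨t, ht⟩ := ih
    have h1 : b5_TC (i + 1) (fun θ => ∑ k ∈ Finset.range (i + 1),
        (-(t k)) * (Real.cos θ * Real.cos (k * θ))) :=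
      b5_sum _ _ fun k hk => b5_smul _ (b5_mul_cos (by
        have := Finset.mem_range.1 hk
        omega))
    obtain ⟨u, hu⟩ := h1
    refine ⟨u, fun θ => ?_⟩
    rw [← hu θ]
    show (-Real.cos θ) ^ (i + 1) = ∑ k ∈ Finset.range (i + 1),
      (-(t k)) * (Real.cos θ * Real.cos (k * θ))
    have h2 : (-Real.cos θ) ^ i = ∑ k ∈ Finset.range (i + 1), t k * Real.cos (k * θ) := ht θ
    rw [pow_succ, h2, Finset.sum_mul]
    exact Finset.sum_congr rfl fun k _ => by ring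

theorem b5_mono {m n : ℕ} (h : m ≤ n) {f : ℝ → ℝ} (hf : b5_TC m f) : b5_TC n f := by
  obtain ⟨t, ht⟩ := hf
  have h1 : b5_TC n (fun θ => ∑ k ∈ Finset.range (m + 1), t k * Real.cos (k * θ)) :=
    b5_sum _ _ fun k hk => b5_smul _ (b5_cos (by
      have := Finset.mem_range.1 hk
      omega))
  obtain ⟨u, hu⟩ := h1
  exact ⟨u, fun θ => by rw [← hu θ, ht θ]⟩

/-- **[RSD-B5a]** A real polynomial `p` of degree `≤ n` in `- cos θ` is a combination of `cos kθ`,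
`k ≤ n`.

Proof. Induction on `n` for monomials: if `(-cos θ)^i = ∑_{k ≤ i} t_k cos kθ` then
`(-cos θ)^(i+1) = -∑ t_k cos θ cos kθ` and `cos θ cos kθ = (cos ((k+1)θ) + cos ((k-1)θ))/2` for
`k ≥ 1`, `= cos θ` for `k = 0`.  (Alternatively Chebyshev polynomials `Polynomial.Chebyshev.T`,
`Polynomial.Chebyshev.T_real_cos`.) -/
theorem poly_cos (n : ℕ) (p : ℝ[X]) (hp : p.natDegree ≤ n) :
    ∃ t : ℕ → ℝ, ∀ θ : ℝ, p.eval (-Real.cos θ) = ∑ k ∈ Finset.range (n + 1), t k * Real.cos (k * θ) := by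
  have h1 : b5_TC n (fun θ => ∑ i ∈ Finset.range (n + 1), p.coeff i * (-Real.cos θ) ^ i) :=
    b5_sum _ _ fun i hi => b5_smul _ (b5_mono (by
      have := Finset.mem_range.1 hi
      omega) (b5_pow i))
  obtain ⟨t, ht⟩ := h1
  refine ⟨t, fun θ => ?_⟩
  rw [← ht θ, Polynomial.eval_eq_sum_range' (Nat.lt_succ_of_le hp)]

/-- **[RSD-B5b]** `θ ↦ V₁(θ) p₁(-cos θ) - V₂(θ) p₂(-cos θ)` is of the form `tev n P 0` with
`deg P_k < d` when `deg V_i < d`, `natDegree p_i ≤ n` (`P_k = t_k V₁ - t'_k V₂`). -/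
theorem tev_of_cos (n d : ℕ) (p1 p2 V1 V2 : ℝ[X]) (h1 : p1.natDegree ≤ n) (h2 : p2.natDegree ≤ n)
    (hV1 : V1.degree < d) (hV2 : V2.degree < d) :
    ∃ P : ℕ → ℝ[X], (∀ k, (P k).degree < d) ∧
      ∀ θ : ℝ, V1.eval θ * p1.eval (-Real.cos θ) - V2.eval θ * p2.eval (-Real.cos θ)
        = tev n P (fun _ => 0) θ := by
  obtain ⟨t, ht⟩ := poly_cos n p1 h1
  obtain ⟨u, hu⟩ := poly_cos n p2 h2
  refine ⟨fun k => t k • V1 - u k • V2, fun k => ?_, fun θ => ?_⟩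
  · refine (Polynomial.degree_sub_le _ _).trans_lt (max_lt ?_ ?_)
    · exact (Polynomial.degree_smul_le _ _).trans_lt hV1
    · exact (Polynomial.degree_smul_le _ _).trans_lt hV2
  · unfold tev
    rw [ht θ, hu θ, Finset.mul_sum, Finset.mul_sum, ← Finset.sum_sub_distrib]
    refine Finset.sum_congr rfl fun k _ => ?_
    simp only [Polynomial.eval_sub, Polynomial.eval_smul, Polynomial.eval_zero, smul_eq_mul,
      zero_mul, add_zero]
    ring

end Pool.Agent.RSD
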