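import Mathlib
import Pool.Agent.RSD.Defs

set_option autoImplicit false

/-! # [RSD-B6] the auxiliary function is not identically zero -/

open Polynomial

namespace Pool.Agent.RSD

/-- `64 π⁴ A² B² D (−cos θ) U(θ)² − N(−cos θ)² W(θ)²` -/
noncomputable def Tfun (f : P5) (U W : ℝ[X]) (θ : ℝ) : ℝ :=
  64 * Real.pi ^ 4 * (f.A (-Real.cos θ) * f.B (-Real.cos θ)) ^ 2 * f.D (-Real.cos θ)
      * (U.eval θ) ^ 2
    - (f.N (-Real.cos θ)) ^ 2 * (W.eval θ) ^ 2


theorem b6_polys (f : P5) : ∃ p1 p2 : ℝ[X], p1.natDegree ≤ 10 ∧ p2.natDegree ≤ 10 ∧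
    (∀ g, p1.eval g = (f.A g * f.B g) ^ 2 * f.D g) ∧ (∀ g, p2.eval g = (f.N g) ^ 2) := by
  have hA : (qA (Polynomial.C f.b) (Polynomial.C f.d) (X : ℝ[X])).natDegree ≤ 2 := by
    unfold qA
    compute_degree
  have hB : (qB (Polynomial.C f.a) (Polynomial.C f.c) (X : ℝ[X])).natDegree ≤ 2 := by
    unfold qB
    compute_degree
  have hC : (qC (Polynomial.C f.a) (Polynomial.C f.b) (Polynomial.C f.c) (Polynomial.C f.d) (Polynomial.C f.e) (X : ℝ[X])).natDegree ≤ 2 := by
    unfold qC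
    compute_degree
  have hD : (qD (Polynomial.C f.a) (Polynomial.C f.b) (Polynomial.C f.c) (Polynomial.C f.d) (Polynomial.C f.e) (X : ℝ[X])).natDegree ≤ 2 := by
    unfold qD
    compute_degree
  have hA' : (qA' (Polynomial.C f.b) (Polynomial.C f.d) (X : ℝ[X])).natDegree ≤ 1 := by
    unfold qA'
    compute_degree
  have hB' : (qB' (Polynomial.C f.a) (Polynomial.C f.c) (X : ℝ[X])).natDegree ≤ 1 := by
    unfold qB'
    compute_degree
  have hC' : (qC' (Polynomial.C f.a) (Polynomial.C f.b) (Polynomial.C f.c) (Polynomial.C f.d) (Polynomial.C f.e) (X : ℝ[X])).natDegree ≤ 1 := by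
    unfold qC'
    compute_degree
  refine ⟨(qA (Polynomial.C f.b) (Polynomial.C f.d) X * qB (Polynomial.C f.a) (Polynomial.C f.c) X) ^ 2 *
      qD (Polynomial.C f.a) (Polynomial.C f.b) (Polynomial.C f.c) (Polynomial.C f.d) (Polynomial.C f.e) X,
    (qN (Polynomial.C f.a) (Polynomial.C f.b) (Polynomial.C f.c) (Polynomial.C f.d) (Polynomial.C f.e) X) ^ 2, ?_, ?_, ?_, ?_⟩
  · refine Polynomial.natDegree_mul_le.trans ?_
    have h1 := Polynomial.natDegree_pow_le (p := qA (Polynomial.C f.b) (Polynomial.C f.d) (X : ℝ[X]) *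
      qB (Polynomial.C f.a) (Polynomial.C f.c) X) (n := 2)
    have h2 := Polynomial.natDegree_mul_le (p := qA (Polynomial.C f.b) (Polynomial.C f.d) (X : ℝ[X]))
      (q := qB (Polynomial.C f.a) (Polynomial.C f.c) X)
    omega
  · refine Polynomial.natDegree_pow_le.trans ?_
    have h3 : (qN (Polynomial.C f.a) (Polynomial.C f.b) (Polynomial.C f.c) (Polynomial.C f.d) (Polynomial.C f.e) (X : ℝ[X])).natDegree ≤ 5 := by
      unfold qN
      refine (Polynomial.natDegree_sub_le _ _).trans (max_le ?_ ?_)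
      · refine Polynomial.natDegree_mul_le.trans ?_
        have h4 : (qA' (Polynomial.C f.b) (Polynomial.C f.d) (X : ℝ[X]) * qB (Polynomial.C f.a) (Polynomial.C f.c) X +
            qA (Polynomial.C f.b) (Polynomial.C f.d) X * qB' (Polynomial.C f.a) (Polynomial.C f.c) X).natDegree ≤ 3 := by
          refine (Polynomial.natDegree_add_le _ _).trans (max_le ?_ ?_)
          · refine Polynomial.natDegree_mul_le.trans ?_
            omega
          · refine Polynomial.natDegree_mul_le.trans ?_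
            omega
        omega
      · refine Polynomial.natDegree_mul_le.trans ?_
        have h5 : ((2 : ℝ[X]) * (qA (Polynomial.C f.b) (Polynomial.C f.d) (X : ℝ[X]) * qB (Polynomial.C f.a) (Polynomial.C f.c) X)).natDegree ≤ 4 := by
          refine Polynomial.natDegree_mul_le.trans ?_
          have h6 : (2 : ℝ[X]).natDegree = 0 := Polynomial.natDegree_ofNat 2
          have h7 := Polynomial.natDegree_mul_le (p := qA (Polynomial.C f.b) (Polynomial.C f.d) (X : ℝ[X]))
            (q := qB (Polynomial.C f.a) (Polynomial.C f.c) X)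
          omega
        omega
    omega
  · intro g
    simp only [qA, qB, qD, P5.A, P5.B, P5.D, Polynomial.eval_mul, Polynomial.eval_pow, Polynomial.eval_add,
      Polynomial.eval_sub, Polynomial.eval_one, Polynomial.eval_X, Polynomial.eval_C, Polynomial.eval_ofNat]
  · intro g
    simp only [qN, qC, qA', qA, qB, qB', qC', P5.N, Polynomial.eval_mul, Polynomial.eval_pow, Polynomial.eval_add,
      Polynomial.eval_sub, Polynomial.eval_one, Polynomial.eval_X, Polynomial.eval_C, Polynomial.eval_ofNat, Polynomial.eval_neg]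

theorem b6_analytic (f : P5) (U W : ℝ[X]) : AnalyticOnNhd ℝ (Tfun f U W) Set.univ := by
  obtain ⟨p1, p2, -, -, h1, h2⟩ := b6_polys f
  have h3 : Tfun f U W = fun θ => 64 * Real.pi ^ 4 * p1.eval (-Real.cos θ) * (U.eval θ) ^ 2 - p2.eval (-Real.cos θ) * (W.eval θ) ^ 2 := by
    funext θ
    rw [Tfun, h1, h2]
    ring
  rw [h3]
  intro x _
  have hc : AnalyticAt ℝ (fun θ : ℝ => -Real.cos θ) x := Real.analyticAt_cos.neg
  have e1 : AnalyticAt ℝ (fun θ : ℝ => p1.eval (-Real.cos θ)) x := by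
    have := hc.aeval_polynomial p1
    simpa [Polynomial.coe_aeval_eq_eval] using this
  have e2 : AnalyticAt ℝ (fun θ : ℝ => p2.eval (-Real.cos θ)) x := by
    have := hc.aeval_polynomial p2
    simpa [Polynomial.coe_aeval_eq_eval] using this
  have e3 : AnalyticAt ℝ (fun θ : ℝ => U.eval θ) x := AnalyticOnNhd.eval_polynomial (𝕜 := ℝ) U x (Set.mem_univ x)
  have e4 : AnalyticAt ℝ (fun θ : ℝ => W.eval θ) x := AnalyticOnNhd.eval_polynomial (𝕜 := ℝ) W x (Set.mem_univ x)
  exact ((analyticAt_const.mul e1).mul (e3.pow 2)).sub (e2.mul (e4.pow 2))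

/-- polynomials agreeing on an infinite set -/
theorem b6_eq_of_inf (p q : ℝ[X]) (S : Set ℝ) (hS : S.Infinite) (h : ∀ x ∈ S, p.eval x = q.eval x) : p = q := by
  have h1 : p - q = 0 := by
    apply Polynomial.eq_zero_of_infinite_isRoot
    refine hS.mono fun x hx => ?_
    show Polynomial.IsRoot (p - q) x
    rw [Polynomial.IsRoot, Polynomial.eval_sub, h x hx, sub_self]
  exact sub_eq_zero.1 h1

theorem b6_large (f : P5) (he : f.e ^ 2 < 1) : ∃ g, f.A g < 0 ∧ f.B g < 0 ∧ f.D g < 0 := by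
  have hm : 0 < 1 - f.e ^ 2 := by linarith
  set k : ℝ := f.a * f.c + f.b * f.d - f.b * f.c * f.e - f.a * f.d * f.e with hk
  set l : ℝ := 1 - f.a ^ 2 - f.b ^ 2 - f.c ^ 2 - f.d ^ 2 - f.e ^ 2 + 2 * (f.a * f.b * f.e + f.c * f.d * f.e)
    + f.a ^ 2 * f.d ^ 2 + f.b ^ 2 * f.c ^ 2 - 2 * (f.a * f.b * f.c * f.d) with hl
  set g : ℝ := (2 * |k| + |l| + 1) / (1 - f.e ^ 2) + 2 * |f.b * f.d| + 2 * |f.a * f.c| + 2 with hg
  have h0 : 0 ≤ (2 * |k| + |l| + 1) / (1 - f.e ^ 2) := by positivity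
  have hbd := abs_nonneg (f.b * f.d)
  have hac := abs_nonneg (f.a * f.c)
  have h1 : 2 ≤ g := by linarith
  have h2 : 2 * |f.b * f.d| + 2 ≤ g := by linarith
  have h3 : 2 * |f.a * f.c| + 2 ≤ g := by linarith
  have h4 : (2 * |k| + |l| + 1) ≤ (1 - f.e ^ 2) * g := by
    have h5 : (2 * |k| + |l| + 1) / (1 - f.e ^ 2) ≤ g := by linarith
    rw [div_le_iff₀ hm] at h5
    linarith
  refine ⟨g, ?_, ?_, ?_⟩
  · unfold P5.A qA
    have h5 : g * (f.b * f.d) ≤ g * |f.b * f.d| := mul_le_mul_of_nonneg_left (le_abs_self _) (by linarith)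
    nlinarith [sq_nonneg f.b, sq_nonneg f.d, mul_le_mul_of_nonneg_left h2 (show 0 ≤ g by linarith)]
  · unfold P5.B qB
    have h5 : g * (f.a * f.c) ≤ g * |f.a * f.c| := mul_le_mul_of_nonneg_left (le_abs_self _) (by linarith)
    nlinarith [sq_nonneg f.a, sq_nonneg f.c, mul_le_mul_of_nonneg_left h3 (show 0 ≤ g by linarith)]
  · have h6 : f.D g = -(1 - f.e ^ 2) * g ^ 2 + 2 * k * g + l := by
      rw [P5.D, qD, hk, hl]
      ring
    rw [h6]
    have h7 : g * k ≤ g * |k| := mul_le_mul_of_nonneg_left (le_abs_self _) (by linarith)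
    have h8 : l ≤ |l| := le_abs_self _
    have h9 : (2 * |k| + |l| + 1) * g ≤ (1 - f.e ^ 2) * g * g := mul_le_mul_of_nonneg_right h4 (by linarith)
    have h10 : |l| ≤ |l| * g := by nlinarith [abs_nonneg l]
    nlinarith

/-- **[RSD-B6]** `Tfun f U W` does not vanish identically on any interval when `W ≠ 0`,
`e² < 1` and the polynomial `f.N` is not identically zero.

Proof. The function is real analytic on `ℝ` (polynomials and `cos`); if it vanished on `(a, b)` it
would vanish on `ℝ` (`AnalyticOnNhd.eqOn_zero_of_preconnected_of_eventuallyEq_zero`).  Fix `x` and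
put `c₁ = 64π⁴(AB)²D(-cos x)`, `c₂ = N(-cos x)²`.  At `y = x + 2πk`, `k ∈ ℕ`:
`c₁ U(y)² = c₂ W(y)²`, so the polynomial `C c₁ U² - C c₂ W²` has infinitely many roots and is `0`
(`Polynomial.eq_zero_of_infinite_isRoot`).  Choose `y₀` with `W(y₀) ≠ 0` and
`λ = 64π⁴ U(y₀)²/W(y₀)² ≥ 0`: `N(g)² = λ (A(g)B(g))² D(g)` for all `g = -cos x ∈ [-1, 1]`, hence
(two polynomials in `g` agreeing at infinitely many points) for all real `g`.  If `λ = 0`, `N = 0`
everywhere, contradiction.  If `λ > 0` take `g` large: `A(g) < 0` and `B(g) < 0` for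
`g ≥ 2|b d| + 2`, `g ≥ 2 |a c| + 2`, and `D(g) = -(1 - e²) g² + 2 k g + l < 0` for large `g`, so the
right side is negative and the left side is `≥ 0`, contradiction. -/
theorem Tfun_ne (f : P5) (he : f.e ^ 2 < 1) (hN : ∃ g, f.N g ≠ 0) (U W : ℝ[X]) (hW : W ≠ 0)
    (a b : ℝ) (hab : a < b) : ∃ x ∈ Set.Ioo a b, Tfun f U W x ≠ 0 := by
  by_contra hcon
  push Not at hcon
  have han := b6_analytic f U W
  have hall : ∀ x, Tfun f U W x = 0 := by
    have h1 := han.eqOn_zero_of_preconnected_of_eventuallyEq_zero isPreconnected_univ (Set.mem_univ ((a + b) / 2))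
      (by
        filter_upwards [Ioo_mem_nhds (show a < (a + b) / 2 by linarith) (show (a + b) / 2 < b by linarith)] with x hx
        exact hcon x hx)
    exact fun x => h1 (Set.mem_univ x)
  obtain ⟨p1, p2, -, -, hp1, hp2⟩ := b6_polys f
  -- for each `x` an identity in `y`
  have key : ∀ x y : ℝ, 64 * Real.pi ^ 4 * p1.eval (-Real.cos x) * (U.eval y) ^ 2 = p2.eval (-Real.cos x) * (W.eval y) ^ 2 := by
    intro x y
    have h2 : Polynomial.C (64 * Real.pi ^ 4 * p1.eval (-Real.cos x)) * U ^ 2 = Polynomial.C (p2.eval (-Real.cos x)) * W ^ 2 := by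
      apply b6_eq_of_inf _ _ (Set.range fun k : ℕ => x + k * (2 * Real.pi))
      · refine Set.infinite_range_of_injective fun k k' h => ?_
        have h3 : (k : ℝ) * (2 * Real.pi) = k' * (2 * Real.pi) := by
          have : x + (k : ℝ) * (2 * Real.pi) = x + k' * (2 * Real.pi) := h
          linarith
        have h4 : (2 * Real.pi) ≠ 0 := by positivity
        exact_mod_cast mul_right_cancel₀ h4 h3
      · rintro _ ⟨k, rfl⟩
        have h3 := hall (x + k * (2 * Real.pi))
        rw [Tfun, Real.cos_add_nat_mul_two_pi] at h3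
        simp only [Polynomial.eval_mul, Polynomial.eval_C, Polynomial.eval_pow, hp1, hp2]
        linarith
    have h3 := congrArg (Polynomial.eval y) h2
    simpa only [Polynomial.eval_mul, Polynomial.eval_C, Polynomial.eval_pow] using h3
  obtain ⟨y0, hy0⟩ : ∃ y, W.eval y ≠ 0 := by
    by_contra h
    push Not at h
    exact hW (Polynomial.funext fun y => by rw [h y, Polynomial.eval_zero])
  have hpoly : Polynomial.C (64 * Real.pi ^ 4 * (U.eval y0) ^ 2) * p1 = Polynomial.C ((W.eval y0) ^ 2) * p2 := by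
    apply b6_eq_of_inf _ _ (Set.Icc (-1 : ℝ) 1) (Set.Icc_infinite (by norm_num))
    intro g hg
    have h1 : -Real.cos (Real.arccos (-g)) = g := by
      rw [Real.cos_arccos (by linarith [hg.2]) (by linarith [hg.1]), neg_neg]
    have h2 := key (Real.arccos (-g)) y0
    rw [h1] at h2
    simp only [Polynomial.eval_mul, Polynomial.eval_C]
    linarith
  have hid : ∀ g, 64 * Real.pi ^ 4 * (U.eval y0) ^ 2 * ((f.A g * f.B g) ^ 2 * f.D g) = (W.eval y0) ^ 2 * (f.N g) ^ 2 := by
    intro g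
    have h1 := congrArg (Polynomial.eval g) hpoly
    simp only [Polynomial.eval_mul, Polynomial.eval_C, hp1, hp2] at h1
    exact h1
  have hw : 0 < (W.eval y0) ^ 2 := by positivity
  rcases eq_or_ne (U.eval y0) 0 with h0 | h0
  · obtain ⟨g, hg⟩ := hN
    have h1 := hid g
    rw [h0] at h1
    have h2 : (W.eval y0) ^ 2 * (f.N g) ^ 2 = 0 := by rw [← h1]; ring
    rcases mul_eq_zero.1 h2 with h3 | h3
    · exact hw.ne' h3
    · exact hg (pow_eq_zero_iff (two_ne_zero) |>.1 h3)
  · obtain ⟨g, hA, hB, hD⟩ := b6_large f he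
    have h1 := hid g
    have h2 : 0 < 64 * Real.pi ^ 4 * (U.eval y0) ^ 2 := by
      have := Real.pi_pos
      positivity
    have h3 : 0 < (f.A g * f.B g) ^ 2 := by
      have := mul_pos_of_neg_of_neg hA hB
      positivity
    have h4 : (f.A g * f.B g) ^ 2 * f.D g < 0 := mul_neg_of_pos_of_neg h3 hD
    have h5 : 64 * Real.pi ^ 4 * (U.eval y0) ^ 2 * ((f.A g * f.B g) ^ 2 * f.D g) < 0 := mul_neg_of_pos_of_neg h2 h4
    have h6 : 0 ≤ (W.eval y0) ^ 2 * (f.N g) ^ 2 := by positivity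
    linarith

/-- **[RSD-B6b]** degrees: the polynomials in `g` occurring in `Tfun`. There are polynomials
`p₁, p₂` of degree `≤ 10` with `p₁(g) = (A B)² D`, `p₂(g) = N²`. -/
theorem Tfun_polys (f : P5) : ∃ p1 p2 : ℝ[X], p1.natDegree ≤ 10 ∧ p2.natDegree ≤ 10 ∧
    (∀ g, p1.eval g = (f.A g * f.B g) ^ 2 * f.D g) ∧ (∀ g, p2.eval g = (f.N g) ^ 2) := by
  exact b6_polys f

end Pool.Agent.RSD
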