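import Mathlib
import Pool.Agent.RSD.Defs
import Pool.Agent.RSD.B.B1
import Pool.Agent.RSD.B.B4
import Pool.Agent.RSD.B.B5
import Pool.Agent.RSD.B.B6

set_option autoImplicit false

/-! # [RSD-B7] the zero bound for `P + Q F` -/

open Polynomial

namespace Pool.Agent.RSD

/-- the two derivatives of `P / Q + F` -/
lemma b7_deriv1 (P Q : ℝ[X]) (F : ℝ → ℝ) (x y : ℝ) (hQx : Q.eval x ≠ 0)
    (h : HasDerivAt F y x) :
    HasDerivAt (fun t => P.eval t / Q.eval t + F t)
      ((derivative P * Q - P * derivative Q).eval x / (Q.eval x) ^ 2 + y) x := by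
  have h1 := ((P.hasDerivAt x).div (Q.hasDerivAt x) hQx).add h
  refine h1.congr_deriv ?_
  simp only [eval_sub, eval_mul]

lemma b7_deriv2 (S Q : ℝ[X]) (F1 : ℝ → ℝ) (x y : ℝ) (hQx : Q.eval x ≠ 0)
    (h : HasDerivAt F1 y x) :
    HasDerivAt (fun t => S.eval t / (Q.eval t) ^ 2 + F1 t)
      ((derivative S * Q - C 2 * (S * derivative Q)).eval x / (Q.eval x) ^ 3 + y) x := by
  have hQ2 : (Q.eval x) ^ 2 ≠ 0 := pow_ne_zero 2 hQx
  have h1 := ((S.hasDerivAt x).div ((Q.hasDerivAt x).pow 2) hQ2).add h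
  refine h1.congr_deriv ?_
  simp only [eval_sub, eval_mul, eval_C, Pi.pow_apply]
  field_simp
  ring

/-- squaring the equation `U/Q³ + Fpp = 0` -/
lemma b7_square (f : P5) (g u q : ℝ) (hA : 0 < f.A g) (hB : 0 < f.B g) (hD : 0 < f.D g)
    (hq : q ≠ 0) (h : u / q ^ 3 + f.Fpp g = 0) :
    64 * Real.pi ^ 4 * (f.A g * f.B g) ^ 2 * f.D g * u ^ 2 - (f.N g) ^ 2 * (q ^ 3) ^ 2 = 0 := by
  unfold P5.Fpp at h
  have hs : 0 < Real.sqrt (f.D g) := Real.sqrt_pos.mpr hD
  have hs2 : Real.sqrt (f.D g) ^ 2 = f.D g := Real.sq_sqrt hD.le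
  have hpi := Real.pi_pos
  have hq3 : q ^ 3 ≠ 0 := pow_ne_zero 3 hq
  have hden : (8 * Real.pi ^ 2 * (f.A g * f.B g) * Real.sqrt (f.D g)) ≠ 0 := by positivity
  have h' : u * (8 * Real.pi ^ 2 * (f.A g * f.B g) * Real.sqrt (f.D g)) = -(f.N g) * q ^ 3 := by
    have := h
    rw [div_add_div _ _ hq3 hden, div_eq_zero_iff] at this
    rcases this with h1 | h1
    · linarith
    · exact absurd h1 (mul_ne_zero hq3 hden)
  have h2 : (u * (8 * Real.pi ^ 2 * (f.A g * f.B g) * Real.sqrt (f.D g))) ^ 2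
      = (-(f.N g) * q ^ 3) ^ 2 := by rw [h']
  have h3 : (u * (8 * Real.pi ^ 2 * (f.A g * f.B g) * Real.sqrt (f.D g))) ^ 2
      = 64 * Real.pi ^ 4 * (f.A g * f.B g) ^ 2 * (Real.sqrt (f.D g) ^ 2) * u ^ 2 := by ring
  rw [h3, hs2] at h2
  rw [h2]
  ring

/-- **[RSD-B7]** Zero bound.  `F'' = Fpp(-cos θ)` on `(α, β)`, a short interval on which
`A, B, D > 0`; `P, Q` polynomials of degree `< 2m`, not both zero.  Then `P + Q F` has at most
`270 m` zeros in `(α, β)`.

Proof. If `Q = 0`: `P ≠ 0`, at most `2m - 1` roots.  If `Q ≠ 0`, let `E = Q.roots.toFinset`,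
`|E| ≤ 2m - 1`.  On `(α, β) ∖ E` the function `P/Q + F` has derivative `S/Q² + F1`,
`S = P'Q - PQ'`, which has derivative `U/Q³ + Fpp`, `U = S'Q - 2SQ'`.  `Z ∖ E` consists of zeros of
`P/Q + F`; `rolle_except` twice gives `Z''` with `|Z ∖ E| ≤ |Z''| + 2 + 2|E|` consisting of zeros of
`U/Q³ + Fpp` outside `E`.  There `U = - Q³ N/(8π² A B √D)`, so squaring
`64π⁴ (AB)² D U² = Q⁶ N²`, i.e. `Tfun f U (Q^3) = 0`.  Now `Tfun f U (Q^3) = tev 10 P̂ 0` with degrees
`< 12 m` (`tev_of_cos` with `V₁ = 64π⁴U²`, `V₂ = Q⁶`, `Tfun_polys`; `deg U ≤ 6m - 5`,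
`deg Q⁶ ≤ 12m - 6`), not identically `0` (`Tfun_ne`), and `10 (β - α) < π`, so
`|Z''| + 1 ≤ 2 · 11 · 12m = 264 m` (`tev_zeros`).  Total
`|Z| ≤ (2m - 1) + (264m - 1) + 2 + 2(2m - 1) ≤ 270 m`.  (If `β ≤ α` then `Z = ∅`.) -/
theorem zero_bound (f : P5) (he : f.e ^ 2 < 1) (hN : ∃ g, f.N g ≠ 0) (m : ℕ) (hm : 1 ≤ m)
    (α β : ℝ) (hαβ : 10 * (β - α) < Real.pi)
    (hpos : ∀ x ∈ Set.Ioo α β, 0 < f.A (-Real.cos x) ∧ 0 < f.B (-Real.cos x) ∧
      0 < f.D (-Real.cos x))
    (F F1 : ℝ → ℝ)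
    (h1 : ∀ x ∈ Set.Ioo α β, HasDerivAt F (F1 x) x)
    (h2 : ∀ x ∈ Set.Ioo α β, HasDerivAt F1 (f.Fpp (-Real.cos x)) x)
    (P Q : ℝ[X]) (hP : P.natDegree < 2 * m) (hQ : Q.natDegree < 2 * m) (hPQ : P ≠ 0 ∨ Q ≠ 0)
    (Z : Finset ℝ) (hZ : ∀ z ∈ Z, z ∈ Set.Ioo α β ∧ P.eval z + Q.eval z * F z = 0) :
    Z.card ≤ 270 * m := by
  classical
  rcases le_or_gt β α with hle | hlt
  · have : Z = ∅ := by
      rw [Finset.eq_empty_iff_forall_notMem]
      intro z hz
      have := (hZ z hz).1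
      rw [Set.Ioo_eq_empty (not_lt.mpr hle)] at this
      exact this
    rw [this]; simp
  by_cases hQ0 : Q = 0
  · have hP0 : P ≠ 0 := by
      rcases hPQ with h | h
      · exact h
      · exact absurd hQ0 h
    have hsub : Z ⊆ P.roots.toFinset := by
      intro z hz
      rw [Multiset.mem_toFinset, mem_roots hP0]
      have := (hZ z hz).2
      rw [hQ0] at this
      simpa using this
    have hc := Finset.card_le_card hsub
    have hc2 : P.roots.toFinset.card ≤ P.natDegree :=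
      (Multiset.toFinset_card_le _).trans (card_roots' P)
    omega
  · set E : Finset ℝ := Q.roots.toFinset with hE
    have hEcard : E.card ≤ Q.natDegree :=
      (Multiset.toFinset_card_le _).trans (card_roots' Q)
    have hEmem : ∀ x, x ∉ E → Q.eval x ≠ 0 := by
      intro x hx h0
      apply hx
      rw [hE, Multiset.mem_toFinset, mem_roots hQ0]
      exact h0
    set S : ℝ[X] := derivative P * Q - P * derivative Q with hS
    set U : ℝ[X] := derivative S * Q - C 2 * (S * derivative Q) with hU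
    set Z0 : Finset ℝ := Z.filter (fun z => z ∉ E) with hZ0
    have hZcard : Z.card ≤ Z0.card + E.card := by
      have h3 : Z ⊆ Z0 ∪ E := by
        intro z hz
        by_cases hzE : z ∈ E
        · exact Finset.mem_union_right _ hzE
        · exact Finset.mem_union_left _ (Finset.mem_filter.mpr ⟨hz, hzE⟩)
      exact (Finset.card_le_card h3).trans (Finset.card_union_le _ _)
    obtain ⟨Z1, hZ1, hc1⟩ := rolle_except (fun t => P.eval t / Q.eval t + F t)
      (fun t => S.eval t / (Q.eval t) ^ 2 + F1 t) α β E Z0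
      (by
        intro x hx hxE
        exact b7_deriv1 P Q F x (F1 x) (hEmem x hxE) (h1 x hx))
      (by
        intro z hz
        rw [hZ0, Finset.mem_filter] at hz
        refine ⟨(hZ z hz.1).1, hz.2, ?_⟩
        have h3 := (hZ z hz.1).2
        have hq := hEmem z hz.2
        show P.eval z / Q.eval z + F z = 0
        field_simp
        linarith)
    obtain ⟨Z2, hZ2, hc2⟩ := rolle_except (fun t => S.eval t / (Q.eval t) ^ 2 + F1 t)
      (fun t => U.eval t / (Q.eval t) ^ 3 + f.Fpp (-Real.cos t)) α β E Z1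
      (by
        intro x hx hxE
        exact b7_deriv2 S Q F1 x _ (hEmem x hxE) (h2 x hx))
      hZ1
    -- the zeros of `Tfun`
    have hT : ∀ z ∈ Z2, z ∈ Set.Ioo α β ∧ Tfun f U (Q ^ 3) z = 0 := by
      intro z hz
      obtain ⟨hzI, hzE, hz0⟩ := hZ2 z hz
      refine ⟨hzI, ?_⟩
      obtain ⟨hA, hB, hD⟩ := hpos z hzI
      have := b7_square f (-Real.cos z) (U.eval z) (Q.eval z) hA hB hD (hEmem z hzE) hz0
      unfold Tfun
      rw [eval_pow]
      exact this
    obtain ⟨p1, p2, hp1, hp2, he1, he2⟩ := Tfun_polys f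
    -- degrees
    have hdP' : (derivative P).natDegree ≤ 2 * m - 2 := by
      have := natDegree_derivative_le P
      omega
    have hdQ' : (derivative Q).natDegree ≤ 2 * m - 2 := by
      have := natDegree_derivative_le Q
      omega
    have hdS : S.natDegree ≤ 4 * m - 3 := by
      have ha : (derivative P * Q).natDegree ≤ (2 * m - 2) + (2 * m - 1) :=
        natDegree_mul_le.trans (Nat.add_le_add hdP' (by omega))
      have hb : (P * derivative Q).natDegree ≤ (2 * m - 1) + (2 * m - 2) :=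
        natDegree_mul_le.trans (Nat.add_le_add (by omega) hdQ')
      have := natDegree_sub_le_of_le (m := (4 * m - 3)) (p := derivative P * Q)
        (q := P * derivative Q) (by omega) (by omega : _ ≤ 4 * m - 3)
      rw [hS]
      simpa using this
    have hdS' : (derivative S).natDegree ≤ 4 * m - 4 := by
      have := natDegree_derivative_le S
      omega
    have hdU : U.natDegree ≤ 6 * m - 5 := by
      have ha : (derivative S * Q).natDegree ≤ (4 * m - 4) + (2 * m - 1) :=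
        natDegree_mul_le.trans (Nat.add_le_add hdS' (by omega))
      have hb : (S * derivative Q).natDegree ≤ (4 * m - 3) + (2 * m - 2) :=
        natDegree_mul_le.trans (Nat.add_le_add hdS hdQ')
      have hb' : (C 2 * (S * derivative Q)).natDegree ≤ (4 * m - 3) + (2 * m - 2) :=
        (natDegree_C_mul_le _ _).trans hb
      have := natDegree_sub_le_of_le (m := (6 * m - 5)) (p := derivative S * Q)
        (q := C 2 * (S * derivative Q)) (by omega) (by omega : _ ≤ 6 * m - 5)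
      rw [hU]
      simpa using this
    have hdeg : ∀ V : ℝ[X], V.natDegree < 12 * m → V.degree < ((12 * m : ℕ) : WithBot ℕ) := by
      intro V hV
      exact (degree_le_natDegree).trans_lt (by exact_mod_cast hV)
    have hV1 : (C (64 * Real.pi ^ 4) * U ^ 2).degree < ((12 * m : ℕ) : WithBot ℕ) := by
      apply hdeg
      have ha : (U ^ 2).natDegree ≤ 2 * (6 * m - 5) :=
        natDegree_pow_le.trans (Nat.mul_le_mul_left 2 hdU)
      have hb := natDegree_C_mul_le (64 * Real.pi ^ 4) (U ^ 2)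
      omega
    have hV2 : (((Q ^ 3) ^ 2 : ℝ[X])).degree < ((12 * m : ℕ) : WithBot ℕ) := by
      apply hdeg
      have ha : (Q ^ 3).natDegree ≤ 3 * (2 * m - 1) :=
        natDegree_pow_le.trans (Nat.mul_le_mul_left 3 (by omega))
      have hb : ((Q ^ 3) ^ 2).natDegree ≤ 2 * (3 * (2 * m - 1)) :=
        natDegree_pow_le.trans (Nat.mul_le_mul_left 2 ha)
      omega
    obtain ⟨PP, hPPdeg, hPPev⟩ := tev_of_cos 10 (12 * m) p1 p2 (C (64 * Real.pi ^ 4) * U ^ 2)
      ((Q ^ 3) ^ 2) hp1 hp2 hV1 hV2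
    have hTtev : ∀ θ, Tfun f U (Q ^ 3) θ = tev 10 PP (fun _ => 0) θ := by
      intro θ
      rw [← hPPev θ, he1, he2]
      unfold Tfun
      simp only [eval_mul, eval_C, eval_pow]
      ring
    have hne : ∃ x ∈ Set.Ioo α β, tev 10 PP (fun _ => 0) x ≠ 0 := by
      obtain ⟨x, hx, hx0⟩ := Tfun_ne f he hN U (Q ^ 3) (pow_ne_zero 3 hQ0) α β hlt
      exact ⟨x, hx, by rw [← hTtev]; exact hx0⟩
    have hfin := tev_zeros 10 (fun _ => 12 * m) PP (fun _ => 0) α β
      (by
        intro k _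
        refine ⟨hPPdeg k, ?_⟩
        rw [degree_zero]
        exact WithBot.bot_lt_coe _)
      (by push_cast; exact hαβ) hne Z2
      (by
        intro z hz
        refine ⟨(hT z hz).1, ?_⟩
        rw [← hTtev]
        exact (hT z hz).2)
    rw [Finset.sum_const, Finset.card_range, smul_eq_mul] at hfin
    omega

end Pool.Agent.RSD
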